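import Mathlib

/-!
# The optimal coefficient of `f_{5,5,7}` is `5`

Borodin: `18 f_{5,5,5} + 9 f_{5,5,6} + 5 f_{5,5,7} + 4 f_{5,6,6} ≥ 144` for each plane graph of
minimum degree at least `5`. We show that the coefficient `5` cannot be lowered, by a plane
triangulation with 114 vertices with `f_{5,5,5} = f_{5,5,6} = 0`, `f_{5,5,7} = f_{5,6,6} = 16`,
and also prove the inequality (for connected graphs).

Proof of the inequality (discharging, all amounts doubled). A vertex of degree `d` has the charge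
`24 (6 - d)` and a face of length `r` the charge `48 (3 - r)`; the total charge is `288`. A light
triangle pays `L2` to each of its vertices of degree `5`; a vertex of degree `7` or at least `8`
pays `t2` through its triangles to the neighbours of degree `5`; a larger face pays `12` to each
of its vertices of degree `5`. Each vertex of degree `5` gets at least `24`, the vertices of
degree `7` pay at most `24`, those of degree `d ≥ 8` at most `6 d ≤ 24 (d - 6)`.
-/

set_option autoImplicit false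

namespace Pool.Agent.Results.MP_cadcf7_co.LightFaces

open Finset Function

section Orbits

variable {D : Type} [Fintype D]

/-- The orbit (cycle) of `d` under the permutation `τ`. -/
noncomputable def orbit (τ : Equiv.Perm D) (d : D) : Finset D := by
  classical exact Finset.univ.filter fun d' => τ.SameCycle d d'

/-- The number of orbits of `τ` all of whose members satisfy `P` (for an invariant predicate `P`):
the number of different sets `orbit τ d` with `P d`. -/
noncomputable def numOrbits (τ : Equiv.Perm D) (P : D → Prop) : ℕ := by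
  classical exact ((Finset.univ.filter P).image (orbit τ)).card

lemma mem_orbit {τ : Equiv.Perm D} {d d' : D} : d' ∈ orbit τ d ↔ τ.SameCycle d d' := by
  classical
  simp [orbit]

lemma orbit_eq_iff {τ : Equiv.Perm D} {d d' : D} : orbit τ d = orbit τ d' ↔ τ.SameCycle d d' := by
  constructor
  · intro h
    have : d' ∈ orbit τ d := by
      rw [h]
      exact mem_orbit.2 (Equiv.Perm.SameCycle.refl _ _)
    exact mem_orbit.1 this
  · intro h
    ext x
    rw [mem_orbit, mem_orbit]
    exact ⟨fun hx => h.symm.trans hx, fun hx => h.trans hx⟩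

lemma orbit_apply (τ : Equiv.Perm D) (d : D) : orbit τ (τ d) = orbit τ d :=
  (orbit_eq_iff.2 (Equiv.Perm.sameCycle_apply_right.2 (Equiv.Perm.SameCycle.refl _ _))).symm

lemma orbit_card (τ : Equiv.Perm D) (d : D) : (orbit τ d).card = minimalPeriod τ d := by
  classical
  have h := MulAction.minimalPeriod_eq_card (a := τ) (b := d)
  have h2 : minimalPeriod τ d = minimalPeriod (τ • ·) d := rfl
  rw [h2, h]
  rw [← Fintype.card_coe]
  refine Fintype.card_congr (Equiv.subtypeEquivRight fun x => ?_)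
  rw [mem_orbit]
  constructor
  · rintro ⟨i, hi⟩
    exact ⟨⟨τ ^ i, ⟨i, rfl⟩⟩, hi⟩
  · rintro ⟨⟨g, i, rfl⟩, hi⟩
    exact ⟨i, hi⟩

lemma pow_card_orbit (τ : Equiv.Perm D) (d : D) : τ^[(orbit τ d).card] d = d := by
  rw [orbit_card]
  exact iterate_minimalPeriod

lemma orbit_card_pos (τ : Equiv.Perm D) (d : D) : 0 < (orbit τ d).card :=
  Finset.card_pos.2 ⟨d, mem_orbit.2 (Equiv.Perm.SameCycle.refl _ _)⟩

/-- Counting orbits with the weights `1 / |orbit|`. -/
lemma sum_inv_orbit (τ : Equiv.Perm D) (P : D → Prop) [DecidablePred P]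
    (hP : ∀ d, P (τ d) ↔ P d) :
    ∑ d, (if P d then (1 : ℝ) / (orbit τ d).card else 0) = numOrbits τ P := by
  classical
  have hPs : ∀ d d', τ.SameCycle d d' → (P d ↔ P d') := by
    intro d d' h
    obtain ⟨n, hn⟩ := h.exists_nat_pow_eq
    rw [← hn]
    clear hn h
    induction n with
    | zero => simp
    | succ n ih => rw [pow_succ', Equiv.Perm.mul_apply, hP]; exact ih
  rw [← Finset.sum_filter]
  have h1 : ∑ d ∈ Finset.univ.filter P, (1 : ℝ) / (orbit τ d).card =
      ∑ q ∈ (Finset.univ.filter P).image (orbit τ),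
        ∑ d ∈ (Finset.univ.filter P).filter (fun d => orbit τ d = q), (1 : ℝ) / (orbit τ d).card :=
    (Finset.sum_fiberwise_of_maps_to (fun d hd => Finset.mem_image_of_mem _ hd) _).symm
  rw [h1]
  have h2 : ∀ q ∈ (Finset.univ.filter P).image (orbit τ),
      ∑ d ∈ (Finset.univ.filter P).filter (fun d => orbit τ d = q), (1 : ℝ) / (orbit τ d).card
        = 1 := by
    intro q hq
    obtain ⟨d0, hd0, rfl⟩ := Finset.mem_image.1 hq
    rw [Finset.mem_filter] at hd0
    have h3 : (Finset.univ.filter P).filter (fun d => orbit τ d = orbit τ d0) = orbit τ d0 := by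
      ext d
      rw [Finset.mem_filter, Finset.mem_filter, mem_orbit, orbit_eq_iff]
      constructor
      · rintro ⟨-, h⟩
        exact h.symm
      · intro h
        exact ⟨⟨Finset.mem_univ _, (hPs d0 d h).1 hd0.2⟩, h.symm⟩
    rw [h3]
    have h4 : ∀ d ∈ orbit τ d0, (1 : ℝ) / (orbit τ d).card = 1 / (orbit τ d0).card := by
      intro d hd
      rw [orbit_eq_iff.2 (mem_orbit.1 hd).symm]
    rw [Finset.sum_congr rfl h4, Finset.sum_const, nsmul_eq_mul]
    have := orbit_card_pos τ d0
    field_simp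
  rw [Finset.sum_congr rfl h2, Finset.sum_const, nsmul_eq_mul, mul_one]
  unfold numOrbits
  congr!

end Orbits

/-- A finite connected simple plane graph, given as a combinatorial map: `D` is the set of the
darts (directed edges), `α` reverses a dart, and `σ` sends a dart to the next dart around its
starting vertex. The vertices are the orbits of `σ` and the faces are the orbits of `σ ∘ α`;
the map is plane by Euler's formula. -/
structure PlaneGraph where
  /-- the darts -/
  D : Type
  [fin : Fintype D]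
  /-- rotation around the starting vertex -/
  σ : Equiv.Perm D
  /-- reversal -/
  α : Equiv.Perm D
  alpha_alpha : ∀ d, α (α d) = d
  alpha_ne : ∀ d, α d ≠ d
  connected : ∀ d d' : D, ∃ g ∈ Subgroup.closure ({σ, α} : Set (Equiv.Perm D)), g d = d'
  no_loop : ∀ d, ¬ σ.SameCycle d (α d)
  no_multi : ∀ d d', σ.SameCycle d d' → σ.SameCycle (α d) (α d') → d = d'
  euler : 2 * (numOrbits σ (fun _ => True) + numOrbits (σ * α) (fun _ => True)) =
    Fintype.card D + 4

namespace PlaneGraph

variable (G : PlaneGraph)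

instance : Fintype G.D := G.fin

/-- The face permutation. -/
def φ : Equiv.Perm G.D := G.σ * G.α

/-- The degree of the starting vertex of a dart: the number of the darts in its `σ`-orbit. -/
noncomputable def deg (d : G.D) : ℕ := (orbit G.σ d).card

/-- The length of the boundary of the face of a dart. -/
noncomputable def len (d : G.D) : ℕ := (orbit G.φ d).card

/-- The minimum degree is at least `5`. -/
def MinDegFive : Prop := ∀ d, 5 ≤ G.deg d

/-- The face of the dart `d` is a triangle whose vertices have the degrees `i, j, k`. -/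
def IsType (i j k : ℕ) (d : G.D) : Prop :=
  G.len d = 3 ∧ ({G.deg d, G.deg (G.φ d), G.deg (G.φ (G.φ d))} : Multiset ℕ) = {i, j, k}

/-- `f_{i,j,k}`: the number of triangular faces with the vertex degrees `i, j, k`. -/
noncomputable def f (i j k : ℕ) : ℕ := numOrbits G.φ (G.IsType i j k)

variable {G}

lemma deg_sigma (d : G.D) : G.deg (G.σ d) = G.deg d := by
  unfold deg
  rw [orbit_apply]

lemma len_phi (d : G.D) : G.len (G.φ d) = G.len d := by
  unfold len
  rw [orbit_apply]

lemma deg_phi (d : G.D) : G.deg (G.φ d) = G.deg (G.α d) := deg_sigma (G.α d)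

lemma sigma_iter_deg (d : G.D) : G.σ^[G.deg d] d = d := pow_card_orbit _ _

lemma phi_iter_len (d : G.D) : G.φ^[G.len d] d = d := pow_card_orbit _ _

lemma phi_three {d : G.D} (h : G.len d = 3) : G.φ (G.φ (G.φ d)) = d := by
  have := phi_iter_len d
  rw [h] at this
  exact this

lemma alpha_phi_phi {d : G.D} (h : G.len d = 3) : G.φ (G.φ d) = G.α (G.σ.symm d) := by
  have h3 := phi_three h
  have h4 : G.σ (G.α (G.φ (G.φ d))) = d := h3
  have h5 : G.σ.symm d = G.α (G.φ (G.φ d)) := by
    rw [Equiv.symm_apply_eq]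
    exact h4.symm
  rw [h5, G.alpha_alpha]

lemma len_ge_three (hG : G.MinDegFive) (d : G.D) : 3 ≤ G.len d := by
  have hpos : 0 < G.len d := orbit_card_pos _ _
  have h := phi_iter_len d
  by_contra hlt
  push Not at hlt
  have h12 : G.len d = 1 ∨ G.len d = 2 := by omega
  rcases h12 with h1 | h1
  · rw [h1] at h
    have h2 : G.σ (G.α d) = d := h
    apply G.no_loop d
    have h3 : G.σ.SameCycle (G.α d) (G.σ (G.α d)) :=
      Equiv.Perm.sameCycle_apply_right.2 (Equiv.Perm.SameCycle.refl _ _)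
    rw [h2] at h3
    exact h3.symm
  · rw [h1] at h
    have h2 : G.σ (G.α (G.σ (G.α d))) = d := h
    have h3 : G.σ.SameCycle (G.α d) (G.σ (G.α d)) :=
      Equiv.Perm.sameCycle_apply_right.2 (Equiv.Perm.SameCycle.refl _ _)
    have h4 : G.σ.SameCycle (G.α (G.σ (G.α d))) (G.σ (G.α (G.σ (G.α d)))) :=
      Equiv.Perm.sameCycle_apply_right.2 (Equiv.Perm.SameCycle.refl _ _)
    rw [h2] at h4
    have h5 := G.no_multi (G.α d) (G.σ (G.α d)) h3 (by rw [G.alpha_alpha]; exact h4.symm)
    -- the vertex of `α d` would have degree one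
    have h6 := hG (G.α d)
    unfold deg at h6
    rw [orbit_card] at h6
    have h7 : minimalPeriod G.σ (G.α d) ∣ 1 :=
      IsPeriodicPt.minimalPeriod_dvd (show IsPeriodicPt G.σ 1 (G.α d) from h5.symm)
    have h8 := Nat.le_of_dvd one_pos h7
    omega

/-- Euler's formula as a sum over the darts. -/
lemma euler_sum (G : PlaneGraph) :
    ∑ d : G.D, (24 * ((6 : ℝ) - G.deg d) / G.deg d - 48 * ((G.len d : ℝ) - 3) / G.len d) =
      288 := by
  classical
  have hV := sum_inv_orbit G.σ (fun _ => True) (fun _ => Iff.rfl)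
  have hF := sum_inv_orbit G.φ (fun _ => True) (fun _ => Iff.rfl)
  simp only [if_true] at hV hF
  have hE := G.euler
  have hE' : 2 * ((numOrbits G.σ (fun _ => True) : ℝ) + numOrbits G.φ (fun _ => True)) =
      Fintype.card G.D + 4 := by exact_mod_cast hE
  have h1 : ∀ d : G.D, 24 * ((6 : ℝ) - G.deg d) / G.deg d - 48 * ((G.len d : ℝ) - 3) / G.len d =
      144 * (1 / (orbit G.σ d).card) + 144 * (1 / (orbit G.φ d).card) - 72 := by
    intro d
    have h2 : (0 : ℝ) < G.deg d := by exact_mod_cast orbit_card_pos G.σ d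
    have h3 : (0 : ℝ) < G.len d := by exact_mod_cast orbit_card_pos G.φ d
    have e1 : ((orbit G.σ d).card : ℝ) = G.deg d := rfl
    have e2 : ((orbit G.φ d).card : ℝ) = G.len d := rfl
    rw [e1, e2]
    field_simp
    ring
  rw [Finset.sum_congr rfl fun d _ => h1 d, Finset.sum_sub_distrib, Finset.sum_add_distrib,
    ← Finset.mul_sum, ← Finset.mul_sum, hV, hF, Finset.sum_const, Finset.card_univ, nsmul_eq_mul]
  linarith

/-! ### Weights -/

/-- Twice the share of a light face given to a vertex of degree `5`, the other two vertices having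
degrees `x` and `y`. -/
def L2 (x y : ℕ) : ℕ :=
  if x = 5 then (if y = 5 then 12 else if y = 6 then 9 else if y = 7 then 5 else 0)
  else if x = 6 then (if y = 5 then 9 else if y = 6 then 8 else 0)
  else if x = 7 then (if y = 5 then 5 else 0)
  else 0

/-- Twice the amount sent by a vertex of degree `u` through a triangle to a vertex of degree `5`,
the third vertex having degree `o`. -/
def t2 (u o : ℕ) : ℕ :=
  if u ≤ 6 then 0 else if u = 7 then (if o = 5 then 0 else 4) else (if o = 5 then 3 else 6)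

/-- The total. -/
def W2 (x y : ℕ) : ℕ := L2 x y + t2 x y + t2 y x

lemma L2_big {x : ℕ} (h : 8 ≤ x) (y : ℕ) : L2 x y = 0 := by
  unfold L2
  rw [if_neg (by omega), if_neg (by omega), if_neg (by omega)]

lemma L2_comm (x y : ℕ) : L2 x y = L2 y x := by
  unfold L2
  split_ifs <;> omega

lemma t2_big_left {u : ℕ} (h : 8 ≤ u) (o : ℕ) : t2 u o = if o = 5 then 3 else 6 := by
  unfold t2
  rw [if_neg (by omega), if_neg (by omega)]

lemma t2_big_right {o : ℕ} (h : 8 ≤ o) (u : ℕ) :
    t2 u o = if u ≤ 6 then 0 else if u = 7 then 4 else 6 := by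
  unfold t2
  rw [if_neg (by omega : ¬ o = 5), if_neg (by omega : ¬ o = 5)]

lemma W2_comm (x y : ℕ) : W2 x y = W2 y x := by
  unfold W2
  rw [L2_comm x y]
  ring

lemma W2_big {x : ℕ} (h : 8 ≤ x) (y : ℕ) : W2 x y = W2 8 y := by
  unfold W2
  rw [L2_big h, L2_big le_rfl, t2_big_left h, t2_big_left le_rfl, t2_big_right h,
    t2_big_right le_rfl]

lemma W2_min_left (x y : ℕ) : W2 x y = W2 (min x 8) y := by
  rcases Nat.lt_or_ge x 8 with h1 | h1
  · rw [min_eq_left h1.le]
  · rw [min_eq_right h1]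
    exact W2_big h1 y

lemma W2_min (x y : ℕ) : W2 x y = W2 (min x 8) (min y 8) := by
  rw [W2_min_left x y, W2_comm, W2_min_left y, W2_comm]

lemma W2_le {x y : ℕ} (hx : 5 ≤ x) (hy : 5 ≤ y) : W2 x y ≤ 12 := by
  rw [W2_min]
  have key : ∀ i j : Fin 4, W2 (5 + i) (5 + j) ≤ 12 := by decide
  have h1 : min x 8 = 5 + (⟨min x 8 - 5, by omega⟩ : Fin 4) := by simp only; omega
  have h2 : min y 8 = 5 + (⟨min y 8 - 5, by omega⟩ : Fin 4) := by simp only; omega
  rw [h1, h2]
  exact key _ _

lemma W2_five_fin : ∀ a b c d e : Fin 4, 24 ≤ W2 (5 + a) (5 + b) + W2 (5 + b) (5 + c) +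
    W2 (5 + c) (5 + d) + W2 (5 + d) (5 + e) + W2 (5 + e) (5 + a) := by
  decide

/-- The five corners at a vertex of degree `5`. -/
lemma W2_five {a b c d e : ℕ} (ha : 5 ≤ a) (hb : 5 ≤ b) (hc : 5 ≤ c) (hd : 5 ≤ d) (he : 5 ≤ e) :
    24 ≤ W2 a b + W2 b c + W2 c d + W2 d e + W2 e a := by
  rw [W2_min a b, W2_min b c, W2_min c d, W2_min d e, W2_min e a]
  have key : ∀ x : ℕ, 5 ≤ x → ∃ i : Fin 4, min x 8 = 5 + i := by
    intro x hx
    exact ⟨⟨min x 8 - 5, by omega⟩, by simp only; omega⟩
  obtain ⟨i1, h1⟩ := key a ha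
  obtain ⟨i2, h2⟩ := key b hb
  obtain ⟨i3, h3⟩ := key c hc
  obtain ⟨i4, h4⟩ := key d hd
  obtain ⟨i5, h5⟩ := key e he
  rw [h1, h2, h3, h4, h5]
  exact W2_five_fin i1 i2 i3 i4 i5

lemma seven_fin : ∀ a b c d e f g : Bool,
    (if a = b then 0 else 4) + (if b = c then 0 else 4) + (if c = d then 0 else 4) +
    (if d = e then 0 else 4) + (if e = f then 0 else 4) + (if f = g then 0 else 4) +
    (if g = a then 0 else 4) ≤ 24 := by
  decide

lemma avg {D : Type} [Fintype D] (τ : Equiv.Perm D) (k : ℕ) (g : D → ℝ) :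
    (k : ℝ) * ∑ d, g d = ∑ d, ∑ i ∈ Finset.range k, g (τ^[i] d) := by
  rw [Finset.sum_comm]
  have h1 : ∀ i ∈ Finset.range k, ∑ d, g (τ^[i] d) = ∑ d, g d := by
    intro i _
    have h2 := Equiv.sum_comp (τ ^ i) g
    rw [← h2]
    exact Finset.sum_congr rfl fun d _ => by rw [Equiv.Perm.iterate_eq_pow]
  rw [Finset.sum_congr rfl h1, Finset.sum_const, Finset.card_range, nsmul_eq_mul]

/-- The degree of the other end of a dart. -/
noncomputable def x (d : G.D) : ℕ := G.deg (G.α d)

lemma deg_phi_x (d : G.D) : G.deg (G.φ d) = x d := deg_phi d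

lemma deg_phi_phi_x {d : G.D} (h : G.len d = 3) : G.deg (G.φ (G.φ d)) = x (G.σ.symm d) := by
  rw [alpha_phi_phi h]
  rfl

/-- The weight of the corner `d` at a vertex of degree `5`. -/
noncomputable def w2 (d : G.D) : ℝ := if G.len d = 3 then (W2 (x d) (x (G.σ.symm d)) : ℝ) else 12

/-- The amount sent through the corner `d` by a vertex of large degree. -/
noncomputable def give (d : G.D) : ℝ :=
  if G.len d = 3 then
    (if G.deg (G.φ (G.φ d)) = 5 then (t2 (G.deg d) (G.deg (G.φ d)) : ℝ) else 0) +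
    (if G.deg (G.φ d) = 5 then (t2 (G.deg d) (G.deg (G.φ (G.φ d))) : ℝ) else 0)
  else 0

lemma deg_iter (d : G.D) (i : ℕ) : G.deg (G.σ^[i] d) = G.deg d := by
  induction i with
  | zero => rfl
  | succ i ih => rw [Function.iterate_succ_apply', deg_sigma, ih]

lemma symm_iter (d : G.D) (i : ℕ) : G.σ.symm (G.σ^[i + 1] d) = G.σ^[i] d := by
  rw [Function.iterate_succ_apply', Equiv.symm_apply_apply]

lemma w2_ge (hG : G.MinDegFive) (d : G.D) : (W2 (x d) (x (G.σ.symm d)) : ℝ) ≤ w2 d := by
  unfold w2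
  split_ifs
  · exact le_refl _
  · exact_mod_cast W2_le (hG _) (hG _)

/-- The corners at a vertex of degree `5`. -/
lemma five_corners (hG : G.MinDegFive) {d : G.D} (h : G.deg d = 5) :
    24 ≤ ∑ i ∈ Finset.range 5, w2 (G.σ^[i] d) := by
  have h5 : G.σ^[5] d = d := by
    have := sigma_iter_deg d
    rwa [h] at this
  have h4 : G.σ.symm d = G.σ^[4] d := by
    rw [← symm_iter d 4, h5]
  have hW := W2_five (hG (G.α (G.σ^[0] d))) (hG (G.α (G.σ^[1] d))) (hG (G.α (G.σ^[2] d)))
    (hG (G.α (G.σ^[3] d))) (hG (G.α (G.σ^[4] d)))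
  have e0 := w2_ge hG (G.σ^[0] d)
  have e1 := w2_ge hG (G.σ^[1] d)
  have e2 := w2_ge hG (G.σ^[2] d)
  have e3 := w2_ge hG (G.σ^[3] d)
  have e4 := w2_ge hG (G.σ^[4] d)
  rw [show G.σ^[0] d = d from rfl, h4] at e0
  rw [symm_iter d 0] at e1
  rw [symm_iter d 1] at e2
  rw [symm_iter d 2] at e3
  rw [symm_iter d 3] at e4
  have hW' : (24 : ℝ) ≤ W2 (x (G.σ^[0] d)) (x (G.σ^[1] d)) + W2 (x (G.σ^[1] d)) (x (G.σ^[2] d)) +
      W2 (x (G.σ^[2] d)) (x (G.σ^[3] d)) + W2 (x (G.σ^[3] d)) (x (G.σ^[4] d)) +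
      W2 (x (G.σ^[4] d)) (x (G.σ^[0] d)) := by exact_mod_cast hW
  rw [W2_comm (x (G.σ^[0] d)), W2_comm (x (G.σ^[1] d)) (x (G.σ^[2] d)),
    W2_comm (x (G.σ^[2] d)) (x (G.σ^[3] d)), W2_comm (x (G.σ^[3] d)) (x (G.σ^[4] d)),
    W2_comm (x (G.σ^[4] d)) (x (G.σ^[0] d))] at hW'
  simp only [Finset.sum_range_succ, Finset.sum_range_zero, zero_add]
  have ez : G.σ^[0] d = d := rfl
  rw [ez] at hW' e1 ⊢
  linarith

lemma give_seven {d : G.D} (h : G.deg d = 7) :
    give d ≤ ((if decide (x d = 5) = decide (x (G.σ.symm d) = 5) then 0 else 4 : ℕ) : ℝ) := by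
  unfold give
  split_ifs with h1 h2 h3 h4 h4 h3 h4 h4 h2
  all_goals first
    | (rw [deg_phi_phi_x h1] at *; rw [deg_phi_x] at *; rw [h]; simp_all [t2])
    | simp

/-- The corners at a vertex of degree `7`. -/
lemma seven_corners {d : G.D} (h : G.deg d = 7) :
    ∑ i ∈ Finset.range 7, give (G.σ^[i] d) ≤ 24 := by
  have h7 : G.σ^[7] d = d := by
    have := sigma_iter_deg d
    rwa [h] at this
  have h6 : G.σ.symm d = G.σ^[6] d := by
    rw [← symm_iter d 6, h7]
  have hd : ∀ i, G.deg (G.σ^[i] d) = 7 := fun i => by rw [deg_iter, h]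
  have e0 := give_seven (hd 0)
  have e1 := give_seven (hd 1)
  have e2 := give_seven (hd 2)
  have e3 := give_seven (hd 3)
  have e4 := give_seven (hd 4)
  have e5 := give_seven (hd 5)
  have e6 := give_seven (hd 6)
  rw [show G.σ^[0] d = d from rfl, h6] at e0
  rw [symm_iter d 0] at e1
  rw [symm_iter d 1] at e2
  rw [symm_iter d 2] at e3
  rw [symm_iter d 3] at e4
  rw [symm_iter d 4] at e5
  rw [symm_iter d 5] at e6
  have ez : G.σ^[0] d = d := rfl
  rw [ez] at e1
  have hS := seven_fin (decide (x d = 5)) (decide (x (G.σ^[6] d) = 5))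
    (decide (x (G.σ^[5] d) = 5)) (decide (x (G.σ^[4] d) = 5)) (decide (x (G.σ^[3] d) = 5))
    (decide (x (G.σ^[2] d) = 5)) (decide (x (G.σ^[1] d) = 5))
  have hS' : (((if decide (x d = 5) = decide (x (G.σ^[6] d) = 5) then 0 else 4 : ℕ) +
    (if decide (x (G.σ^[6] d) = 5) = decide (x (G.σ^[5] d) = 5) then 0 else 4 : ℕ) +
    (if decide (x (G.σ^[5] d) = 5) = decide (x (G.σ^[4] d) = 5) then 0 else 4 : ℕ) +
    (if decide (x (G.σ^[4] d) = 5) = decide (x (G.σ^[3] d) = 5) then 0 else 4 : ℕ) +
    (if decide (x (G.σ^[3] d) = 5) = decide (x (G.σ^[2] d) = 5) then 0 else 4 : ℕ) +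
    (if decide (x (G.σ^[2] d) = 5) = decide (x (G.σ^[1] d) = 5) then 0 else 4 : ℕ) +
    (if decide (x (G.σ^[1] d) = 5) = decide (x d = 5) then 0 else 4 : ℕ) : ℕ) : ℝ) ≤ 24 := by
    exact_mod_cast hS
  push_cast at hS' e0 e1 e2 e3 e4 e5 e6
  simp only [Finset.sum_range_succ, Finset.sum_range_zero, zero_add]
  rw [ez]
  linarith

lemma pair_iff (b c j k : ℕ) :
    (({b, c} : Multiset ℕ) = {j, k}) ↔ (b = j ∧ c = k) ∨ (b = k ∧ c = j) := by
  constructor
  · intro h
    have hb : b ∈ ({j, k} : Multiset ℕ) := by rw [← h]; simp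
    rw [Multiset.insert_eq_cons, Multiset.mem_cons, Multiset.mem_singleton] at hb
    rcases hb with rfl | rfl
    · left
      rw [Multiset.insert_eq_cons, Multiset.insert_eq_cons, Multiset.cons_inj_right,
        Multiset.singleton_inj] at h
      exact ⟨rfl, h⟩
    · right
      rw [Multiset.pair_comm j b, Multiset.insert_eq_cons, Multiset.insert_eq_cons,
        Multiset.cons_inj_right, Multiset.singleton_inj] at h
      exact ⟨rfl, h⟩
  · rintro (⟨rfl, rfl⟩ | ⟨rfl, rfl⟩)
    · rfl
    · exact Multiset.pair_comm _ _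

lemma triple_iff (a b c i j k : ℕ) :
    (({a, b, c} : Multiset ℕ) = {i, j, k}) ↔ (a = i ∧ ({b, c} : Multiset ℕ) = {j, k}) ∨
      (a = j ∧ ({b, c} : Multiset ℕ) = {i, k}) ∨ (a = k ∧ ({b, c} : Multiset ℕ) = {i, j}) := by
  have hj : ({i, j, k} : Multiset ℕ) = {j, i, k} := Multiset.cons_swap _ _ _
  have hk : ({i, j, k} : Multiset ℕ) = {k, i, j} := by
    have h1 : ({i, j, k} : Multiset ℕ) = {i, k, j} := by
      rw [Multiset.insert_eq_cons, Multiset.insert_eq_cons i, Multiset.pair_comm]
    rw [h1]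
    exact Multiset.cons_swap _ _ _
  constructor
  · intro h
    have ha : a ∈ ({i, j, k} : Multiset ℕ) := by rw [← h]; simp
    rw [Multiset.insert_eq_cons, Multiset.mem_cons, Multiset.insert_eq_cons, Multiset.mem_cons,
      Multiset.mem_singleton] at ha
    rcases ha with rfl | rfl | rfl
    · left
      rw [Multiset.insert_eq_cons, Multiset.insert_eq_cons a, Multiset.cons_inj_right] at h
      exact ⟨rfl, h⟩
    · right; left
      rw [hj, Multiset.insert_eq_cons, Multiset.insert_eq_cons a, Multiset.cons_inj_right] at h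
      exact ⟨rfl, h⟩
    · right; right
      rw [hk, Multiset.insert_eq_cons, Multiset.insert_eq_cons a, Multiset.cons_inj_right] at h
      exact ⟨rfl, h⟩
  · rintro (⟨rfl, h⟩ | ⟨rfl, h⟩ | ⟨rfl, h⟩)
    · rw [Multiset.insert_eq_cons, h]
      rfl
    · rw [Multiset.insert_eq_cons, h, hj]
      rfl
    · rw [Multiset.insert_eq_cons, h, hk]
      rfl

/-- The light weight of a triangle. -/
lemma light_eq (a b c : ℕ) :
    ((if a = 5 then L2 b c else 0) + (if b = 5 then L2 c a else 0) + (if c = 5 then L2 a b else 0)) =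
    36 * (if ({a, b, c} : Multiset ℕ) = {5, 5, 5} then 1 else 0) +
    18 * (if ({a, b, c} : Multiset ℕ) = {5, 5, 6} then 1 else 0) +
    10 * (if ({a, b, c} : Multiset ℕ) = {5, 5, 7} then 1 else 0) +
    8 * (if ({a, b, c} : Multiset ℕ) = {5, 6, 6} then 1 else 0) := by
  simp only [triple_iff, pair_iff]
  have main : ∀ a b c : Fin 9,
    ((if a.val = 5 then L2 b.val c.val else 0) + (if b.val = 5 then L2 c.val a.val else 0) +
      (if c.val = 5 then L2 a.val b.val else 0)) =
    36 * (if (a.val = 5 ∧ (b.val = 5 ∧ c.val = 5 ∨ b.val = 5 ∧ c.val = 5) ∨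
      a.val = 5 ∧ (b.val = 5 ∧ c.val = 5 ∨ b.val = 5 ∧ c.val = 5) ∨
      a.val = 5 ∧ (b.val = 5 ∧ c.val = 5 ∨ b.val = 5 ∧ c.val = 5)) then 1 else 0) +
    18 * (if (a.val = 5 ∧ (b.val = 5 ∧ c.val = 6 ∨ b.val = 6 ∧ c.val = 5) ∨
      a.val = 5 ∧ (b.val = 5 ∧ c.val = 6 ∨ b.val = 6 ∧ c.val = 5) ∨
      a.val = 6 ∧ (b.val = 5 ∧ c.val = 5 ∨ b.val = 5 ∧ c.val = 5)) then 1 else 0) +
    10 * (if (a.val = 5 ∧ (b.val = 5 ∧ c.val = 7 ∨ b.val = 7 ∧ c.val = 5) ∨
      a.val = 5 ∧ (b.val = 5 ∧ c.val = 7 ∨ b.val = 7 ∧ c.val = 5) ∨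
      a.val = 7 ∧ (b.val = 5 ∧ c.val = 5 ∨ b.val = 5 ∧ c.val = 5)) then 1 else 0) +
    8 * (if (a.val = 5 ∧ (b.val = 6 ∧ c.val = 6 ∨ b.val = 6 ∧ c.val = 6) ∨
      a.val = 6 ∧ (b.val = 5 ∧ c.val = 6 ∨ b.val = 6 ∧ c.val = 5) ∨
      a.val = 6 ∧ (b.val = 5 ∧ c.val = 6 ∨ b.val = 6 ∧ c.val = 5)) then 1 else 0) := by
    decide
  rcases Nat.lt_or_ge a 9 with ha | ha
  · rcases Nat.lt_or_ge b 9 with hb | hb
    · rcases Nat.lt_or_ge c 9 with hc | hc
      · exact main ⟨a, ha⟩ ⟨b, hb⟩ ⟨c, hc⟩
      · have h5 : c ≠ 5 := by omega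
        have h6 : c ≠ 6 := by omega
        have h7 : c ≠ 7 := by omega
        have hL := L2_big (by omega : 8 ≤ c)
        simp [h5, h6, h7, hL, L2_comm b c]
    · have h5 : b ≠ 5 := by omega
      have h6 : b ≠ 6 := by omega
      have h7 : b ≠ 7 := by omega
      have hL := L2_big (by omega : 8 ≤ b)
      simp [h5, h6, h7, hL, L2_comm a b]
  · have h5 : a ≠ 5 := by omega
    have h6 : a ≠ 6 := by omega
    have h7 : a ≠ 7 := by omega
    have hL := L2_big (by omega : 8 ≤ a)
    simp [h5, h6, h7, hL, L2_comm c a]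

lemma isType_phi {i j k : ℕ} {d : G.D} : G.IsType i j k (G.φ d) ↔ G.IsType i j k d := by
  unfold IsType
  rw [len_phi]
  constructor
  · rintro ⟨h, h2⟩
    refine ⟨h, ?_⟩
    rw [phi_three h] at h2
    rw [← h2]
    have e1 : ({G.deg (G.φ d), G.deg (G.φ (G.φ d)), G.deg d} : Multiset ℕ) =
        {G.deg (G.φ d), G.deg d, G.deg (G.φ (G.φ d))} := by
      rw [Multiset.insert_eq_cons, Multiset.insert_eq_cons (G.deg (G.φ d)), Multiset.pair_comm]
    rw [e1]
    exact Multiset.cons_swap _ _ _
  · rintro ⟨h, h2⟩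
    refine ⟨h, ?_⟩
    rw [phi_three h, ← h2]
    have e1 : ({G.deg (G.φ d), G.deg (G.φ (G.φ d)), G.deg d} : Multiset ℕ) =
        {G.deg (G.φ d), G.deg d, G.deg (G.φ (G.φ d))} := by
      rw [Multiset.insert_eq_cons, Multiset.insert_eq_cons (G.deg (G.φ d)), Multiset.pair_comm]
    rw [e1]
    exact Multiset.cons_swap _ _ _

open Classical in
/-- The number of darts in the faces of a given type. -/
lemma sum_type (G : PlaneGraph) (i j k : ℕ) :
    ∑ d : G.D, (if G.IsType i j k d then (1 : ℝ) else 0) = 3 * G.f i j k := by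
  classical
  have h := sum_inv_orbit G.φ (G.IsType i j k) (fun d => isType_phi)
  unfold f
  rw [← h, Finset.mul_sum]
  refine Finset.sum_congr rfl fun d _ => ?_
  by_cases hd : G.IsType i j k d
  · rw [if_pos hd, if_pos hd]
    have h3 : (orbit G.φ d).card = 3 := hd.1
    rw [h3]
    norm_num
  · rw [if_neg hd, if_neg hd, mul_zero]

/-- **Borodin's inequality** `(∗_5)`. -/
theorem light_ge (G : PlaneGraph) (hG : G.MinDegFive) :
    144 ≤ 18 * G.f 5 5 5 + 9 * G.f 5 5 6 + 5 * G.f 5 5 7 + 4 * G.f 5 6 6 := by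
  classical
  -- the five-corners inequality
  have hAB : ∑ d : G.D, (if G.deg d = 5 then (24 / 5 : ℝ) else 0) ≤
      ∑ d : G.D, (if G.deg d = 5 then w2 d else 0) := by
    have h1 := avg G.σ 5 (fun d : G.D => if G.deg d = 5 then w2 d else 0)
    have h2 : ∑ d : G.D, (if G.deg d = 5 then (24 : ℝ) else 0) ≤
        ∑ d : G.D, ∑ i ∈ Finset.range 5,
          (if G.deg (G.σ^[i] d) = 5 then w2 (G.σ^[i] d) else 0) := by
      refine Finset.sum_le_sum fun d _ => ?_
      by_cases hd : G.deg d = 5
      · rw [if_pos hd]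
        have h3 : ∀ i ∈ Finset.range 5, (if G.deg (G.σ^[i] d) = 5 then w2 (G.σ^[i] d) else 0) =
            w2 (G.σ^[i] d) := fun i _ => if_pos (by rw [deg_iter, hd])
        rw [Finset.sum_congr rfl h3]
        exact five_corners hG hd
      · rw [if_neg hd]
        have h3 : ∀ i ∈ Finset.range 5, (if G.deg (G.σ^[i] d) = 5 then w2 (G.σ^[i] d) else 0) =
            0 := fun i _ => if_neg (by rw [deg_iter]; exact hd)
        rw [Finset.sum_congr rfl h3, Finset.sum_const_zero]
    have h4 : ∑ d : G.D, (if G.deg d = 5 then (24 : ℝ) else 0) =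
        5 * ∑ d : G.D, (if G.deg d = 5 then (24 / 5 : ℝ) else 0) := by
      rw [Finset.mul_sum]
      refine Finset.sum_congr rfl fun d _ => ?_
      split_ifs <;> norm_num
    rw [h4, ← h1] at h2
    push_cast at h2
    linarith
  -- splitting the corners at the vertices of degree `5`
  have hsplit : ∑ d : G.D, (if G.deg d = 5 then w2 d else 0) =
      ∑ d : G.D, (if G.len d = 3 then
        (if G.deg d = 5 then (L2 (G.deg (G.φ d)) (G.deg (G.φ (G.φ d))) : ℝ) else 0) else 0) +
      ∑ d : G.D, give d +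
      ∑ d : G.D, (if G.len d = 3 then (0 : ℝ) else if G.deg d = 5 then 12 else 0) := by
    have hF1 : ∑ d : G.D, (if G.len d = 3 then
        (if G.deg d = 5 then (t2 (G.deg (G.φ d)) (G.deg (G.φ (G.φ d))) : ℝ) else 0) else 0) =
        ∑ d : G.D, (if G.len d = 3 then
          (if G.deg (G.φ (G.φ d)) = 5 then (t2 (G.deg d) (G.deg (G.φ d)) : ℝ) else 0) else 0) := by
      rw [← Equiv.sum_comp G.φ, ← Equiv.sum_comp G.φ]
      refine Finset.sum_congr rfl fun d _ => ?_
      rw [len_phi, len_phi]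
      by_cases h : G.len d = 3
      · rw [if_pos h, if_pos h, phi_three h]
      · rw [if_neg h, if_neg h]
    have hF2 : ∑ d : G.D, (if G.len d = 3 then
        (if G.deg d = 5 then (t2 (G.deg (G.φ (G.φ d))) (G.deg (G.φ d)) : ℝ) else 0) else 0) =
        ∑ d : G.D, (if G.len d = 3 then
          (if G.deg (G.φ d) = 5 then (t2 (G.deg d) (G.deg (G.φ (G.φ d))) : ℝ) else 0) else 0) := by
      rw [← Equiv.sum_comp G.φ]
      refine Finset.sum_congr rfl fun d _ => ?_
      rw [len_phi]
      by_cases h : G.len d = 3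
      · rw [if_pos h, if_pos h, phi_three h]
      · rw [if_neg h, if_neg h]
    have hgive : ∑ d : G.D, give d =
        ∑ d : G.D, (if G.len d = 3 then
          (if G.deg (G.φ (G.φ d)) = 5 then (t2 (G.deg d) (G.deg (G.φ d)) : ℝ) else 0) else 0) +
        ∑ d : G.D, (if G.len d = 3 then
          (if G.deg (G.φ d) = 5 then (t2 (G.deg d) (G.deg (G.φ (G.φ d))) : ℝ) else 0) else 0) := by
      rw [← Finset.sum_add_distrib]
      refine Finset.sum_congr rfl fun d _ => ?_
      unfold give
      by_cases h : G.len d = 3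
      · rw [if_pos h, if_pos h, if_pos h]
      · rw [if_neg h, if_neg h, if_neg h, add_zero]
    rw [hgive, ← hF1, ← hF2, ← Finset.sum_add_distrib, ← Finset.sum_add_distrib,
      ← Finset.sum_add_distrib]
    refine Finset.sum_congr rfl fun d _ => ?_
    by_cases h : G.len d = 3
    · rw [if_pos h, if_pos h, if_pos h, if_pos h]
      by_cases h5 : G.deg d = 5
      · rw [if_pos h5, if_pos h5, if_pos h5, if_pos h5, w2, if_pos h, W2, deg_phi_phi_x h,
          deg_phi_x]
        push_cast
        ring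
      · rw [if_neg h5, if_neg h5, if_neg h5, if_neg h5]
        ring
    · rw [if_neg h, if_neg h, if_neg h, if_neg h, w2, if_neg h]
      ring
  -- the vertices of degree at least `7`
  have hgive2 : ∑ d : G.D, give d ≤
      ∑ d : G.D, (if 7 ≤ G.deg d then 24 * ((G.deg d : ℝ) - 6) / G.deg d else 0) := by
    have h1 := avg G.σ 7 (fun d : G.D => if G.deg d = 7 then give d else 0)
    have h2 : ∑ d : G.D, ∑ i ∈ Finset.range 7,
          (if G.deg (G.σ^[i] d) = 7 then give (G.σ^[i] d) else 0) ≤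
          ∑ d : G.D, (if G.deg d = 7 then (24 : ℝ) else 0) := by
      refine Finset.sum_le_sum fun d _ => ?_
      by_cases hd : G.deg d = 7
      · rw [if_pos hd]
        have h3 : ∀ i ∈ Finset.range 7, (if G.deg (G.σ^[i] d) = 7 then give (G.σ^[i] d) else 0) =
            give (G.σ^[i] d) := fun i _ => if_pos (by rw [deg_iter, hd])
        rw [Finset.sum_congr rfl h3]
        exact seven_corners hd
      · rw [if_neg hd]
        have h3 : ∀ i ∈ Finset.range 7, (if G.deg (G.σ^[i] d) = 7 then give (G.σ^[i] d) else 0) =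
            0 := fun i _ => if_neg (by rw [deg_iter]; exact hd)
        rw [Finset.sum_congr rfl h3, Finset.sum_const_zero]
    have h4 : ∑ d : G.D, (if G.deg d = 7 then (24 : ℝ) else 0) =
        7 * ∑ d : G.D, (if G.deg d = 7 then (24 / 7 : ℝ) else 0) := by
      rw [Finset.mul_sum]
      refine Finset.sum_congr rfl fun d _ => ?_
      split_ifs <;> norm_num
    rw [h4, ← h1] at h2
    push_cast at h2
    have h5 : ∑ d : G.D, give d = ∑ d : G.D, (if G.deg d = 7 then give d else 0) +
        ∑ d : G.D, (if G.deg d = 7 then 0 else give d) := by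
      rw [← Finset.sum_add_distrib]
      refine Finset.sum_congr rfl fun d _ => ?_
      split_ifs <;> ring
    have h6 : ∑ d : G.D, (if G.deg d = 7 then (24 / 7 : ℝ) else 0) +
        ∑ d : G.D, (if G.deg d = 7 then 0 else give d) ≤
        ∑ d : G.D, (if 7 ≤ G.deg d then 24 * ((G.deg d : ℝ) - 6) / G.deg d else 0) := by
      rw [← Finset.sum_add_distrib]
      refine Finset.sum_le_sum fun d _ => ?_
      have h5d := hG d
      by_cases h7 : G.deg d = 7
      · rw [if_pos h7, if_pos h7, if_pos (by omega), h7]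
        norm_num
      · rw [if_neg h7, if_neg h7, zero_add]
        by_cases h8 : 7 ≤ G.deg d
        · rw [if_pos h8]
          have h8' : 8 ≤ G.deg d := by omega
          have h8r : (8 : ℝ) ≤ G.deg d := by exact_mod_cast h8'
          have hge : (6 : ℝ) ≤ 24 * ((G.deg d : ℝ) - 6) / G.deg d := by
            rw [le_div_iff₀ (by linarith)]
            linarith
          refine le_trans ?_ hge
          unfold give
          rw [t2_big_left h8', t2_big_left h8']
          split_ifs <;> norm_num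
        · rw [if_neg h8]
          unfold give
          have ht : ∀ o, t2 (G.deg d) o = 0 := fun o => by
            unfold t2
            rw [if_pos (by omega)]
          rw [ht, ht]
          split_ifs <;> norm_num
    rw [h5]
    linarith
  -- the large faces
  have hbig : ∑ d : G.D, (if G.len d = 3 then (0 : ℝ) else if G.deg d = 5 then 12 else 0) ≤
      ∑ d : G.D, 48 * ((G.len d : ℝ) - 3) / G.len d := by
    refine Finset.sum_le_sum fun d _ => ?_
    have h3 := len_ge_three hG d
    by_cases h : G.len d = 3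
    · rw [if_pos h, h]
      norm_num
    · rw [if_neg h]
      have h4 : 4 ≤ G.len d := by omega
      have h4r : (4 : ℝ) ≤ G.len d := by exact_mod_cast h4
      have hge : (12 : ℝ) ≤ 48 * ((G.len d : ℝ) - 3) / G.len d := by
        rw [le_div_iff₀ (by linarith)]
        linarith
      refine le_trans ?_ hge
      split_ifs <;> norm_num
  -- Euler's formula
  have heuler : (288 : ℝ) = ∑ d : G.D, (if G.deg d = 5 then (24 / 5 : ℝ) else 0) -
      ∑ d : G.D, (if 7 ≤ G.deg d then 24 * ((G.deg d : ℝ) - 6) / G.deg d else 0) -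
      ∑ d : G.D, 48 * ((G.len d : ℝ) - 3) / G.len d := by
    rw [← euler_sum G, ← Finset.sum_sub_distrib, ← Finset.sum_sub_distrib]
    refine Finset.sum_congr rfl fun d _ => ?_
    have h5 := hG d
    congr 1
    by_cases h5' : G.deg d = 5
    · rw [if_pos h5', if_neg (by omega), h5']
      norm_num
    · rw [if_neg h5', zero_sub]
      by_cases h7 : 7 ≤ G.deg d
      · rw [if_pos h7]
        ring
      · rw [if_neg h7]
        have h6 : G.deg d = 6 := by omega
        rw [h6]
        norm_num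
  -- the light faces
  have hlight : ∑ d : G.D, (if G.len d = 3 then
        (if G.deg d = 5 then (L2 (G.deg (G.φ d)) (G.deg (G.φ (G.φ d))) : ℝ) else 0) else 0) =
      2 * (18 * G.f 5 5 5 + 9 * G.f 5 5 6 + 5 * G.f 5 5 7 + 4 * G.f 5 6 6) := by
    have h1 := avg G.φ 3 (fun d : G.D => if G.len d = 3 then
        (if G.deg d = 5 then (L2 (G.deg (G.φ d)) (G.deg (G.φ (G.φ d))) : ℝ) else 0) else 0)
    have h2 : ∀ d : G.D, ∑ i ∈ Finset.range 3, (if G.len (G.φ^[i] d) = 3 then
        (if G.deg (G.φ^[i] d) = 5 then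
          (L2 (G.deg (G.φ (G.φ^[i] d))) (G.deg (G.φ (G.φ (G.φ^[i] d)))) : ℝ) else 0) else 0) =
        36 * (if G.IsType 5 5 5 d then (1 : ℝ) else 0) +
        18 * (if G.IsType 5 5 6 d then (1 : ℝ) else 0) +
        10 * (if G.IsType 5 5 7 d then (1 : ℝ) else 0) +
        8 * (if G.IsType 5 6 6 d then (1 : ℝ) else 0) := by
      intro d
      simp only [Finset.sum_range_succ, Finset.sum_range_zero, zero_add]
      have z0 : G.φ^[0] d = d := rfl
      have z1 : G.φ^[1] d = G.φ d := rfl
      have z2 : G.φ^[2] d = G.φ (G.φ d) := rfl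
      rw [z0, z1, z2]
      simp only [len_phi]
      by_cases h : G.len d = 3
      · have hT : ∀ i j k, G.IsType i j k d ↔
            ({G.deg d, G.deg (G.φ d), G.deg (G.φ (G.φ d))} : Multiset ℕ) = {i, j, k} :=
          fun i j k => ⟨fun h' => h'.2, fun h' => ⟨h, h'⟩⟩
        rw [if_pos h, if_pos h, if_pos h, phi_three h]
        have h3 := light_eq (G.deg d) (G.deg (G.φ d)) (G.deg (G.φ (G.φ d)))
        have h4 : (((if G.deg d = 5 then L2 (G.deg (G.φ d)) (G.deg (G.φ (G.φ d))) else 0) +
          (if G.deg (G.φ d) = 5 then L2 (G.deg (G.φ (G.φ d))) (G.deg d) else 0) +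
          (if G.deg (G.φ (G.φ d)) = 5 then L2 (G.deg d) (G.deg (G.φ d)) else 0) : ℕ) : ℝ) =
          ((36 * (if ({G.deg d, G.deg (G.φ d), G.deg (G.φ (G.φ d))} : Multiset ℕ) = {5, 5, 5}
            then 1 else 0) +
          18 * (if ({G.deg d, G.deg (G.φ d), G.deg (G.φ (G.φ d))} : Multiset ℕ) = {5, 5, 6}
            then 1 else 0) +
          10 * (if ({G.deg d, G.deg (G.φ d), G.deg (G.φ (G.φ d))} : Multiset ℕ) = {5, 5, 7}
            then 1 else 0) +
          8 * (if ({G.deg d, G.deg (G.φ d), G.deg (G.φ (G.φ d))} : Multiset ℕ) = {5, 6, 6}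
            then 1 else 0) : ℕ) : ℝ) := by exact_mod_cast h3
        push_cast at h4
        simp only [hT]
        exact h4
      · have hT : ∀ i j k, ¬ G.IsType i j k d := fun i j k h' => h h'.1
        rw [if_neg h, if_neg h, if_neg h, if_neg (hT _ _ _), if_neg (hT _ _ _),
          if_neg (hT _ _ _), if_neg (hT _ _ _)]
        ring
    rw [Finset.sum_congr rfl fun d _ => h2 d, Finset.sum_add_distrib, Finset.sum_add_distrib,
      Finset.sum_add_distrib, ← Finset.mul_sum, ← Finset.mul_sum, ← Finset.mul_sum,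
      ← Finset.mul_sum, sum_type, sum_type, sum_type, sum_type] at h1
    push_cast at h1
    linarith
  have hfin : (144 : ℝ) ≤ 18 * G.f 5 5 5 + 9 * G.f 5 5 6 + 5 * G.f 5 5 7 + 4 * G.f 5 6 6 := by
    rw [hsplit, hlight] at hAB
    linarith
  exact_mod_cast hfin

end PlaneGraph

/-! ### The example

A plane triangulation with 114 vertices (48 of degree 5, 32 of degree 6, 32 of degree 7 and 2 of
degree 8); its 672 darts are numbered `0, …, 671`. -/

namespace Example

/-- reversal of the darts (a table with 10 bits per entry) -/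
def tA : ℕ := 0x9de7ca0686a2e90a56739ae72a669199664a529aa325e9768fa6e8795e56a2a9ca0a5093e85a767d92648a029e9e2429067ba7e748f276a62969b23b8be358ea71a5e668ae248aa6aa4e9297e208661f98e8ea36588560e8525ca26889460a80e0995684a0e4a7fdf87fa4e9fe7e90df47b5f391e7a9e63d7a5e8902759c26d8d9e478e399ba3075dd175a349be2c7322e9a667895cb715ca8a668885c088e629821a6fdb96fa1e986166d21896e5983db36b5b284e5a82da88365494a0469da169a0894e00672029364b7e59b6559a7f64c7d5907de46911ee63d89639f2915ea615ec8fe3e7958479e388ddd8775835f182785d95dd76771e28ce31749715c1d58c9cd5ad6a7422d8a22671965591c989dc157d5e712228761b6e959561bd871b554d526e21784a106b94d531b1845a951d466b20c81e0568941501a58199d4ed3a682017f1fa659354d1997ed914bd2e651f67c5ef629294a18d7c186491887ade6781de5f52347522605df5e1174597b76dda5c91244575751d35b10b4296f73dce5990641569721c7580ff3f96370dc2568fa3e55d6f1bb550f33c9576ddb6538ee3b5516c1af520e73994b6adaa508e238545691a34f0db3693f67d9e4d8d635539661974c0cf3393364d924a8ca3252d6318b494c449d876017e478c3309215fd182f4b72f11c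5e97944cb3455745cd0c2c8ac2c5105b96d41ca84256859d0029ca129904589613ec9d3f55c56cf42709626cf8559553bc923c55053ce82448b240ec5294938c873954450cdc21880214e04f93d35c7c365384dcd01ec751e8d44c93132c713352c4acc51c06f321264811f2f86b1a8c146d192e06418cbb468b4178b64510f434ad1745c2c10e2a4572ad0840d0128856154a54089e140a03f0f73d49713c4e268f624c49254f03ace92304811c8f3a8881088a390df3748110440210de1f43b1fcd834cd11d83a0e479348720d474330c73186c0d06e300bf194330b4321a4ba2e45f0a428188b52bcae1602408c5b2a8a428c5107c1e1509f264981281a0644d2508e23443054141188920c820f01003c3f1f8781dc3602c381cc6d1a0660b80a0243119c2a01c2c184600940609c5a164200142214c5206c040744c12c1600c18114440440204c3e0f40c0040e0dc300bc000ac260841c05c1203408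

/-- rotation around the starting vertex -/
def tS : ℕ := 0xa629fa7a9da729ba6a99a4e97a5a95a528ea4a91a428fa268da328ba2a84a2287a1a859fe83a0a81a027a9fa7d9f27b9d6799e2779da709d2739ca719a66f9ba6d9b26b9aa629a26799a659926396e619825f97a5d9725496a599625795a559365394a519424f93a469324b92a49922478fe459124390a41902388fa3d8f23b8ea398ce378da358d22d8ca318c22f8ba288b22b8aa2988a2789a2589223876218821f87a178721b86a198621285a1585213832118420f83a0d81e0b82a098220181a0581203809fc801ff7f9fd7d9fb7e9f97e1f77c5f57d1f37c9eb7c1ef7b9ed7b1e67a9e97a1e7781e5791e3789e176ddf779dd771d4769d9761d7759d573dd3749d1741c8739cd731cb729c970dc7719c5711bc709c1701bf6f9bd6ddbb6e9b96e1b06d9b56d1b36c9b16adaf6b9ad6b1a46a9a96a1a7699a567da3689a1681986799d6719b6699964d97659956518c649916418f6398d61d8b62989621806198561183609815e97f5f97d5f17b5d1795e1775d9755b9735c9715c16f5a16d5b16b5a969589675996559163571615815f5795d5595b56959561575415555153549515294f5394d5314b5114952147519454f943509415013f4e13d4f13b4e9394c9374d9354d1334b1314c12f4b92d4992b4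a9294a12748125491234892146d1f4791d4711446919461174591543d1344911441084390d4310b4290940d0741905410fc40901400ff3f8fd3dcfb3e8f93e0f03d8f53d0f33c8f13acef3b8ed3b0e43a8e93a0e7398e537ce3388e1380d8378dd370db368d934cd7358d5350cc348d1340cf338cd31ccb328c9320c0318c5310c3308c12e8bf2f8bd2f0bb2d4b92e0b72d8af2d0b32c8b12c0aa2b8ad2b0ab290a92a0a7298a527ca3288a1280992789d2709b26894260972589523893248912408f2248d2308b2288322087218852107e208812007f1e07d1f07b1e8791cc771d8751d06d1c8711c06f1b8681b06b1a8691846719865190631885a1805f1785d1705b14c5916057158551504c148511404f1384d1144b12849120471183e11043108411003f0dc3d0f03b0e8390e0300d8350d0330c8310ac2f0b82d0b0260a8290a02708425090230881c0801f0781d05c1b06819060120581505013034110400f038080300b0280900007018050100300801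

/-- the inverse rotation -/
def tI : ℕ := 0xa7a9da729ba6a99a629fa5a95a5293a5e91a428fa3a92a328ba2a89a3687a1a85a1288a0a81a027fa0e7d9f27b9ea7e9e2779da759e6739ca719c2749ba6d9b26b9aa699be6799a659926398a689825f97a5d9725b986599625795a559525a94a519424f93a4d94e4b92a499224791a4c9124390a419023f9163d8f23b8ea398e23e8da358d2338de318c22f8ba2d8ca2b8aa298a22c89a258922388a278821f87a1d8861b86a1986217872158521384a168420f83a0d8321182a098220782e058120380a01819ff7f9fd7f2007e9f97e1f77d9fb7d1f37c9f17d5ef7b9ed7b1eb7c1e97a1e7799ea791e3789e1781e5779dd771db77dd9761d7759d5751da749d1741cf74dcd731cb729c9721ce719c5711c371dc1701bf6f9bd6f1c26e9b96e1b76edb56d1b36c9b16c1b66b9ad6b1ab6bda96a1a7699a5691aa689a16819f68d9d6719b669996619e659956519365d916418f6398d63192629896218762d856118360981601865f97d5f17b5e97f5e1775d9755d1795c9715c16f5b9735b16b5a9695a16d5996559163589675815f5795d5716156959561575595b5515354951541555394d5314b5294f521475194551149509415013f4f9434f13b4e9394e13d4d9354d1334c9374c12f4b92d4b1314a9294a1274992b491234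8921481254791d4711b47d1946117459154511a449114410f44d0d4310b429094210e419054110341d01400ff3f8fd3f1023e8f93e0f73ecf53d0f33c8f13c0f63b8ed3b0eb3bce93a0e7398e5390ea388e1380df38cdd370db368d9360de358d5350d335cd1340cf338cd330d2328c9320c732cc5310c3308c1300c62f8bd2f0bb2e8bf2e0b72d8b52e4b32c8b12c0af2d0ad2b0ab2a8ae2a0a7298a5290a9288a12809f28c9d2709b26899278972589525098248912408f238932308b22889234872188521083220812007f1f8821f07b1e8791e07d1d8751d0731dc711c06f1b86d1c86b1a8691a06c19865190631886119c5f1785d1705b16860160571585515053164511404f1384d1305212849120471184512c43108411003f0f8440f03b0e8390e0370f4350d0330c8310c0360b82d0b02b0bc290a0270982a09023088210941f0781d07020068190601706c1505013048160400f0380d0440b028090200c01805010030080100007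

/-- the starting vertex -/
def tO : ℕ := 0x1c4711c4711c4711c4711c0701c0701c06f1bc6f1bc6f1b86e1b86e1b86d1b46d1b46d1b06c1b06c1b06b1ac6b1ac6b1a86a1a86a1a8691a4691a4691a0681a0681a0681a06719c6719c6719c67198661986619866198651946519465194651906419064190641906318c6318c6318c631886218862188621886118461184611846118060180601805f17c5f17c5f17c5e1785e1785e1745d1745d1745d1705c1705c1705b16c5b16c5b16c5a1685a1685a16459164591645916058160581605715c5715c5715c56158561585615455154551545515054150541505314c5314c5314c52148521485214451144511445114050140501404f13c4f13c4f13c4f1384e1384e1384d1344d1344d1344d1304c1304c1304b12c4b12c4b12c4b1284a1284a1284912449124491244912048120481204711c4711c4711c4711846118461184511445114451144511044110441104310c4310c4310c431084210842108411044110441104411004010040100400fc3f0fc3f0fc3f0f83e0f83e0f83e0f43d0f43d0f43d0f03c0f03c0f03c0ec3b0ec3b0ec3b0e83a0e83a0e83a0e4390e4390e4390e0380e0380e0380dc370dc370dc370d8360d8360d8360d4350d4350d4350d0340d0340d0340cc330cc330cc330c8320c8320c8320c4310c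4310c4310c0300c0300c02f0bc2f0bc2f0bc2f0b82e0b82e0b82d0b42d0b42d0b42d0b02c0b02c0b02b0ac2b0ac2b0ac2b0a82a0a82a0a8290a4290a4290a4290a0280a0280a02709c2709c2709c2709826098260982509425094250942509024090240902308c2308c2308c2308822088220882108421084210842108020080200802007c1f07c1f07c1e0781e0781e0781d0741d0741d0701c0701c0701c06c1b06c1b06c1a0681a0681a06819064190641906018060180601805c1705c1705c16058160581605815054150541505014050140501404c1304c1304c1204812048120481104411044110401004010040100400f03c0f03c0f03c0f0380e0380e0380e0380d0340d0340d0340d0300c0300c0300c0300b02c0b02c0b02c0b0280a0280a0280a0280902409024090240902008020080200701c0701c07018060180601805014050140501004010040100300c0300c03008020080200801004010040100000000000000000000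

/-- table look-up -/
def look (t n : ℕ) : ℕ := (t >>> (10 * n)) % 1024

def a (n : ℕ) : ℕ := look tA n
def s (n : ℕ) : ℕ := look tS n
def r (n : ℕ) : ℕ := look tI n
def o (n : ℕ) : ℕ := look tO n

def chk1 (n : ℕ) : Bool :=
  decide (a n < 672) && decide (s n < 672) && decide (r n < 672) && (a (a n) == n) &&
    (a n != n) && (s (r n) == n) && (r (s n) == n) && (o (s n) == o n) && (o (a n) != o n) &&
    (n == 0 || decide (a n < n) || decide (r n < n)) && (s (a (s (a (s (a n))))) == n) &&
    (s (a n) != n)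

set_option maxRecDepth 100000 in
theorem chk1_all : ((List.range 672).all chk1) = true := by decide +kernel

lemma chk1_spec {n : ℕ} (hn : n < 672) : a n < 672 ∧ s n < 672 ∧ r n < 672 ∧ a (a n) = n ∧
    a n ≠ n ∧ s (r n) = n ∧ r (s n) = n ∧ o (s n) = o n ∧ o (a n) ≠ o n ∧
    (n = 0 ∨ a n < n ∨ r n < n) ∧ s (a (s (a (s (a n))))) = n ∧ s (a n) ≠ n := by
  have h := List.all_eq_true.1 chk1_all n (List.mem_range.2 hn)
  unfold chk1 at h
  simp only [Bool.and_eq_true, Bool.or_eq_true, decide_eq_true_eq, beq_iff_eq, bne_iff_ne] at h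
  obtain ⟨⟨⟨⟨⟨⟨⟨⟨⟨⟨⟨h1, h2⟩, h3⟩, h4⟩, h5⟩, h6⟩, h7⟩, h8⟩, h9⟩, h10⟩, h11⟩, h12⟩ := h
  exact ⟨h1, h2, h3, h4, h5, h6, h7, h8, h9, by tauto, h11, h12⟩

attribute [irreducible] look

def sig : Equiv.Perm (Fin 672) where
  toFun d := ⟨s d, (chk1_spec d.2).2.1⟩
  invFun d := ⟨r d, (chk1_spec d.2).2.2.1⟩
  left_inv d := Fin.ext (chk1_spec d.2).2.2.2.2.2.2.1
  right_inv d := Fin.ext (chk1_spec d.2).2.2.2.2.2.1

def alp : Equiv.Perm (Fin 672) where
  toFun d := ⟨a d, (chk1_spec d.2).1⟩
  invFun d := ⟨a d, (chk1_spec d.2).1⟩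
  left_inv d := Fin.ext (chk1_spec d.2).2.2.2.1
  right_inv d := Fin.ext (chk1_spec d.2).2.2.2.1

lemma sig_val (d : Fin 672) : (sig d).val = s d.val := rfl

lemma alp_val (d : Fin 672) : (alp d).val = a d.val := rfl

lemma sig_symm_val (d : Fin 672) : (sig.symm d).val = r d.val := rfl

/-- The degree. -/
def dg (n : ℕ) : ℕ :=
  let n5 := s (s (s (s (s n))))
  if n5 = n then 5 else if s n5 = n then 6 else if s (s n5) = n then 7 else 8

def chk2 (n : ℕ) : Bool :=
  let n1 := s n
  let n2 := s n1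
  let n3 := s n2
  let n4 := s n3
  let n5 := s n4
  let n6 := s n5
  let n7 := s n6
  let n8 := s n7
  let w := o (a n)
  (n1 != n) && (n2 != n) && (n3 != n) && (n4 != n) &&
  (o (a n1) != w) && (o (a n2) != w) && (o (a n3) != w) && (o (a n4) != w) &&
  (n5 == n || (o (a n5) != w && (n6 == n || (o (a n6) != w && (n7 == n || (o (a n7) != w &&
    n8 == n))))))

set_option maxRecDepth 100000 in
theorem chk2_all : ((List.range 672).all chk2) = true := by decide +kernel

lemma iter_val (d : Fin 672) (k : ℕ) : (sig^[k] d).val = s^[k] d.val := by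
  induction k with
  | zero => rfl
  | succ k ih => rw [Function.iterate_succ_apply', Function.iterate_succ_apply', sig_val, ih]

/-- The degree of the example at each dart, and the heads of the darts around it. -/
lemma deg_spec (d : Fin 672) : minimalPeriod sig d = dg d.val ∧ 5 ≤ dg d.val ∧
    ∀ j, 0 < j → j < dg d.val → o (a (s^[j] d.val)) ≠ o (a d.val) := by
  have h := List.all_eq_true.1 chk2_all d.val (List.mem_range.2 d.2)
  have z1 : s^[1] d.val = s d.val := rfl
  have z2 : s^[2] d.val = s (s d.val) := rfl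
  have z3 : s^[3] d.val = s (s (s d.val)) := rfl
  have z4 : s^[4] d.val = s (s (s (s d.val))) := rfl
  have z5 : s^[5] d.val = s (s (s (s (s d.val)))) := rfl
  have z6 : s^[6] d.val = s (s (s (s (s (s d.val))))) := rfl
  have z7 : s^[7] d.val = s (s (s (s (s (s (s d.val)))))) := rfl
  have z8 : s^[8] d.val = s (s (s (s (s (s (s (s d.val))))))) := rfl
  unfold chk2 at h
  simp only [Bool.and_eq_true, Bool.or_eq_true, beq_iff_eq, bne_iff_ne] at h
  rw [← z8, ← z7, ← z6, ← z5, ← z4, ← z3, ← z2, ← z1] at h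
  have hper : ∀ k, s^[k] d.val = d.val → IsPeriodicPt sig k d := by
    intro k hk
    apply Fin.ext
    rw [iter_val]
    exact hk
  have hmin : ∀ k, 0 < k → s^[k] d.val = d.val → (∀ j, 0 < j → j < k → s^[j] d.val ≠ d.val) →
      minimalPeriod sig d = k := by
    intro k hk hp hj
    apply le_antisymm
    · exact (hper k hp).minimalPeriod_le hk
    · by_contra hlt
      push Not at hlt
      have hpos : 0 < minimalPeriod sig d := (hper k hp).minimalPeriod_pos hk
      apply hj _ hpos hlt
      have h2 := iterate_minimalPeriod (f := sig) (x := d)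
      have h3 := congrArg Fin.val h2
      rwa [iter_val] at h3
  obtain ⟨⟨⟨⟨⟨⟨⟨⟨h1, h2⟩, h3⟩, h4⟩, g1⟩, g2⟩, g3⟩, g4⟩, h5⟩ := h
  have hdg : dg d.val = if s^[5] d.val = d.val then 5 else if s^[6] d.val = d.val then 6 else
      if s^[7] d.val = d.val then 7 else 8 := rfl
  by_cases c5 : s^[5] d.val = d.val
  · rw [hdg, if_pos c5]
    refine ⟨hmin 5 (by norm_num) c5 ?_, le_rfl, ?_⟩
    · intro j hj hj2
      interval_cases j <;> assumption
    · intro j hj hj2
      interval_cases j <;> assumption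
  · rw [hdg, if_neg c5]
    obtain ⟨g5, h6⟩ := h5.resolve_left c5
    by_cases c6 : s^[6] d.val = d.val
    · rw [if_pos c6]
      refine ⟨hmin 6 (by norm_num) c6 ?_, by norm_num, ?_⟩
      · intro j hj hj2
        interval_cases j <;> assumption
      · intro j hj hj2
        interval_cases j <;> assumption
    · rw [if_neg c6]
      obtain ⟨g6, h7⟩ := h6.resolve_left c6
      by_cases c7 : s^[7] d.val = d.val
      · rw [if_pos c7]
        refine ⟨hmin 7 (by norm_num) c7 ?_, by norm_num, ?_⟩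
        · intro j hj hj2
          interval_cases j <;> assumption
        · intro j hj hj2
          interval_cases j <;> assumption
      · rw [if_neg c7]
        obtain ⟨g7, h8⟩ := h7.resolve_left c7
        refine ⟨hmin 8 (by norm_num) h8 ?_, by norm_num, ?_⟩
        · intro j hj hj2
          interval_cases j <;> assumption
        · intro j hj hj2
          interval_cases j <;> assumption

lemma o_sameCycle {d d' : Fin 672} (h : sig.SameCycle d d') : o d.val = o d'.val := by
  obtain ⟨n, hn⟩ := h.exists_nat_pow_eq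
  rw [← hn]
  clear hn h
  induction n with
  | zero => rfl
  | succ n ih =>
    rw [pow_succ', Equiv.Perm.mul_apply, sig_val, (chk1_spec ((sig ^ n) d).2).2.2.2.2.2.2.2.1]
    exact ih

lemma reach (n : ℕ) : ∀ hn : n < 672,
    ∃ g ∈ Subgroup.closure ({sig, alp} : Set (Equiv.Perm (Fin 672))), g 0 = ⟨n, hn⟩ := by
  induction n using Nat.strong_induction_on with
  | _ n ih =>
    intro hn
    rcases (chk1_spec hn).2.2.2.2.2.2.2.2.2.1 with h0 | h0 | h0
    · subst h0
      exact ⟨1, Subgroup.one_mem _, rfl⟩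
    · obtain ⟨g, hg, hg0⟩ := ih (a n) h0 (chk1_spec hn).1
      refine ⟨alp * g, Subgroup.mul_mem _ (Subgroup.subset_closure (by simp)) hg, ?_⟩
      rw [Equiv.Perm.mul_apply, hg0]
      exact Fin.ext (chk1_spec hn).2.2.2.1
    · obtain ⟨g, hg, hg0⟩ := ih (r n) h0 (chk1_spec hn).2.2.1
      refine ⟨sig * g, Subgroup.mul_mem _ (Subgroup.subset_closure (by simp)) hg, ?_⟩
      rw [Equiv.Perm.mul_apply, hg0]
      exact Fin.ext (chk1_spec hn).2.2.2.2.2.1

lemma phi_min (d : Fin 672) : minimalPeriod (sig * alp : Equiv.Perm (Fin 672)) d = 3 := by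
  have h1 : IsPeriodicPt (sig * alp : Equiv.Perm (Fin 672)) 3 d :=
    Fin.ext (chk1_spec d.2).2.2.2.2.2.2.2.2.2.2.1
  have h2 := h1.minimalPeriod_dvd
  have h3 : minimalPeriod (sig * alp : Equiv.Perm (Fin 672)) d ≠ 1 := by
    intro h
    have h4 : (sig * alp : Equiv.Perm (Fin 672)) d = d := by
      have := iterate_minimalPeriod (f := (sig * alp : Equiv.Perm (Fin 672))) (x := d)
      rwa [h] at this
    exact (chk1_spec d.2).2.2.2.2.2.2.2.2.2.2.2 (congrArg Fin.val h4)
  exact ((Nat.dvd_prime Nat.prime_three).1 h2).resolve_left h3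

set_option maxRecDepth 100000 in
theorem sum_dg : ∑ i ∈ Finset.range 672, 840 / dg i = 95760 := by decide +kernel

lemma numV : numOrbits sig (fun _ => True) = 114 := by
  have h := sum_inv_orbit sig (fun _ => True) (fun _ => Iff.rfl)
  simp only [if_true] at h
  have h1 : ∀ d : Fin 672, (1 : ℝ) / (orbit sig d).card = ((840 / dg d.val : ℕ) : ℝ) / 840 := by
    intro d
    rw [orbit_card, (deg_spec d).1]
    have h5 : dg d.val = 5 ∨ dg d.val = 6 ∨ dg d.val = 7 ∨ dg d.val = 8 := by
      unfold dg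
      simp only
      split_ifs <;> simp
    rcases h5 with h5 | h5 | h5 | h5 <;> rw [h5] <;> norm_num
  rw [Finset.sum_congr rfl fun d _ => h1 d, ← Finset.sum_div, ← Nat.cast_sum,
    Fin.sum_univ_eq_sum_range (fun i => 840 / dg i) 672, sum_dg] at h
  have h2 : ((numOrbits sig (fun _ => True) : ℕ) : ℝ) = ((114 : ℕ) : ℝ) := by
    rw [← h]
    norm_num
  exact_mod_cast h2

lemma numF : numOrbits (sig * alp) (fun _ => True) = 224 := by
  have h := sum_inv_orbit (sig * alp) (fun _ => True) (fun _ => Iff.rfl)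
  simp only [if_true] at h
  have h1 : ∀ d : Fin 672, (1 : ℝ) / (orbit (sig * alp) d).card = 1 / 3 := by
    intro d
    rw [orbit_card, phi_min]
    norm_num
  rw [Finset.sum_congr rfl fun d _ => h1 d, Finset.sum_const, Finset.card_univ,
    Fintype.card_fin, nsmul_eq_mul] at h
  have h2 : ((numOrbits (sig * alp) (fun _ => True) : ℕ) : ℝ) = ((224 : ℕ) : ℝ) := by
    rw [← h]
    norm_num
  exact_mod_cast h2

/-- The example. -/
def G : PlaneGraph where
  D := Fin 672
  σ := sig
  α := alp
  alpha_alpha d := Fin.ext (chk1_spec d.2).2.2.2.1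
  alpha_ne d h := (chk1_spec d.2).2.2.2.2.1 (congrArg Fin.val h)
  connected d d' := by
    obtain ⟨g, hg, hg0⟩ := reach d.val d.2
    obtain ⟨g', hg', hg0'⟩ := reach d'.val d'.2
    refine ⟨g' * g⁻¹, Subgroup.mul_mem _ hg' (Subgroup.inv_mem _ hg), ?_⟩
    rw [Equiv.Perm.mul_apply, Equiv.Perm.inv_eq_iff_eq.2 hg0.symm]
    exact hg0'
  no_loop d h := (chk1_spec d.2).2.2.2.2.2.2.2.2.1 (o_sameCycle h).symm
  no_multi d d' h h' := by
    obtain ⟨n, hn⟩ := h.exists_nat_pow_eq
    have hpos : 0 < minimalPeriod sig d := by rw [(deg_spec d).1]; exact lt_of_lt_of_le (by norm_num) (deg_spec d).2.1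
    have h1 : sig^[n % minimalPeriod sig d] d = d' := by
      rw [iterate_mod_minimalPeriod_eq, Equiv.Perm.iterate_eq_pow]
      exact hn
    have h2 : n % minimalPeriod sig d < dg d.val := by
      rw [← (deg_spec d).1]
      exact Nat.mod_lt _ hpos
    by_cases h0 : n % minimalPeriod sig d = 0
    · rw [h0] at h1
      exact h1
    · exfalso
      apply (deg_spec d).2.2 _ (Nat.pos_of_ne_zero h0) h2
      rw [← iter_val, h1]
      exact (o_sameCycle h').symm
  euler := by
    rw [numV, numF, Fintype.card_fin]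

lemma deg_eq (d : G.D) : G.deg d = dg (show Fin 672 from d).val := by
  unfold PlaneGraph.deg
  rw [orbit_card]
  exact (deg_spec d).1

lemma len_eq (d : G.D) : G.len d = 3 := by
  unfold PlaneGraph.len
  rw [orbit_card]
  exact phi_min d

theorem minDeg : G.MinDegFive := fun d => by
  rw [deg_eq]
  exact (deg_spec _).2.1

/-- The next dart of a face. -/
def ph (n : ℕ) : ℕ := s (a n)

def ty (i j k n : ℕ) : Bool :=
  let x := dg n
  let y := dg (ph n)
  let z := dg (ph (ph n))
  (x == i && ((y == j && z == k) || (y == k && z == j))) ||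
  (x == j && ((y == i && z == k) || (y == k && z == i))) ||
  (x == k && ((y == i && z == j) || (y == j && z == i)))

lemma isType_iff (i j k : ℕ) (d : G.D) :
    G.IsType i j k d ↔ ty i j k (show Fin 672 from d).val = true := by
  unfold PlaneGraph.IsType
  have h3 := len_eq d
  rw [PlaneGraph.triple_iff, PlaneGraph.pair_iff, PlaneGraph.pair_iff, PlaneGraph.pair_iff,
    deg_eq, deg_eq, deg_eq]
  have e1 : (show Fin 672 from G.φ d).val = ph (show Fin 672 from d).val := rfl
  have e2 : (show Fin 672 from G.φ (G.φ d)).val = ph (ph (show Fin 672 from d).val) := rfl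
  rw [e1, e2, and_iff_right h3]
  unfold ty
  generalize dg (ph (ph (show Fin 672 from d).val)) = z
  generalize dg (ph (show Fin 672 from d).val) = y
  generalize dg (show Fin 672 from d).val = x
  clear e1 e2 h3
  simp only [Bool.or_eq_true, Bool.and_eq_true, beq_iff_eq]
  exact or_assoc.symm

lemma f_eq (i j k m : ℕ)
    (h : ∑ n ∈ Finset.range 672, (if ty i j k n = true then 1 else 0) = 3 * m) :
    G.f i j k = m := by
  classical
  have h1 := PlaneGraph.sum_type G i j k
  have h2 : ∑ d : G.D, (if G.IsType i j k d then (1 : ℝ) else 0) =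
      ∑ d : Fin 672, (((if ty i j k d.val = true then 1 else 0 : ℕ) : ℕ) : ℝ) := by
    refine Finset.sum_congr rfl fun d _ => ?_
    by_cases hd : G.IsType i j k d
    · rw [if_pos hd, if_pos ((isType_iff i j k d).1 hd)]
      norm_num
    · rw [if_neg hd, if_neg (fun h' => hd ((isType_iff i j k d).2 h'))]
      norm_num
  rw [h2, ← Nat.cast_sum,
    Fin.sum_univ_eq_sum_range (fun n => if ty i j k n = true then 1 else 0) 672, h] at h1
  have h3 : ((3 * m : ℕ) : ℝ) = ((3 * G.f i j k : ℕ) : ℝ) := by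
    rw [h1]
    push_cast
    ring
  have h4 : 3 * m = 3 * G.f i j k := by exact_mod_cast h3
  omega

set_option maxRecDepth 100000 in
theorem f555 : G.f 5 5 5 = 0 := f_eq 5 5 5 0 (by decide +kernel)

set_option maxRecDepth 100000 in
theorem f556 : G.f 5 5 6 = 0 := f_eq 5 5 6 0 (by decide +kernel)

set_option maxRecDepth 100000 in
theorem f557 : G.f 5 5 7 = 16 := f_eq 5 5 7 16 (by decide +kernel)

set_option maxRecDepth 100000 in
theorem f566 : G.f 5 6 6 = 16 := f_eq 5 6 6 16 (by decide +kernel)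

end Example

/-- The inequality `(∗_c)` for the graph `G`. -/
def Star (c : ℝ) (G : PlaneGraph) : Prop :=
  144 ≤ 18 * (G.f 5 5 5 : ℝ) + 9 * G.f 5 5 6 + c * G.f 5 5 7 + 4 * G.f 5 6 6

/-- **Main theorem.** (1) There is a (connected) plane graph of minimum degree `5` with
`f_{5,5,5} = f_{5,5,6} = 0` and `f_{5,5,7} = f_{5,6,6} = 16`, so that `(∗_c)` fails for it for each
`c < 5`. (2) `(∗_5)` holds for every connected plane graph of minimum degree at least `5`.
(3) Hence `c* = 5`: the number `5` is the least `c ≥ 0` for which `(∗_c)` always holds. -/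
theorem result :
    (∃ G : PlaneGraph, G.MinDegFive ∧ G.f 5 5 5 = 0 ∧ G.f 5 5 6 = 0 ∧ G.f 5 5 7 = 16 ∧
      G.f 5 6 6 = 16) ∧
    (∀ G : PlaneGraph, G.MinDegFive →
      144 ≤ 18 * G.f 5 5 5 + 9 * G.f 5 5 6 + 5 * G.f 5 5 7 + 4 * G.f 5 6 6) ∧
    IsLeast {c : ℝ | 0 ≤ c ∧ ∀ G : PlaneGraph, G.MinDegFive → Star c G} 5 ∧
    sInf {c : ℝ | 0 ≤ c ∧ ∀ G : PlaneGraph, G.MinDegFive → Star c G} = 5 := by
  have hleast : IsLeast {c : ℝ | 0 ≤ c ∧ ∀ G : PlaneGraph, G.MinDegFive → Star c G} 5 := by
    constructor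
    · refine ⟨by norm_num, fun G hG => ?_⟩
      unfold Star
      exact_mod_cast PlaneGraph.light_ge G hG
    · rintro c ⟨-, hc⟩
      have h := hc Example.G Example.minDeg
      unfold Star at h
      rw [Example.f555, Example.f556, Example.f557, Example.f566] at h
      push_cast at h
      linarith
  exact ⟨⟨Example.G, Example.minDeg, Example.f555, Example.f556, Example.f557, Example.f566⟩,
    PlaneGraph.light_ge, hleast, hleast.csInf_eq⟩

end Pool.Agent.Results.MP_cadcf7_co.LightFaces
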